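import Pool.Agent.Helper55.RR.G1
import Pool.Agent.Helper55.RR.F2

open Pool.Agent.RR

/-- There is an omega-model of RCA₀ in which `RRT³ₖ` holds for all `k`, while for every Rado graph `G` in
the model, every `k ≥ 2` and every graph `D` on three vertices the principle `RRTₖ(G, D)` fails. -/
theorem Pool.Agent.Results.MP_af8b59_lc.RainbowRado.result :
    ∃ S : Set (Set ℕ), ModelsRCA0 S ∧ (∀ k, RRT3 k S) ∧
      (∃ G : SimpleGraph ℕ, gset G ∈ S ∧ RadoOn G Set.univ) ∧
      ∀ G : SimpleGraph ℕ, gset G ∈ S → RadoOn G Set.univ → ∀ k, 2 ≤ k →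
        ∀ D : SimpleGraph (Fin 3), ¬ RRTR k D G S :=
  final
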